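import Mathlib

/-!
# Symmetric identities of bounded arity and lattice varieties (MP_78b302_al, Q1)

We disprove the statement of Q1: there is a lattice variety `V`, axiomatized by identities of
arity at most `3` (in fact by one ternary identity), and a lattice `L ∉ V` (with nine elements)
which satisfies every symmetric identity of arity at most `3` that holds in `V`.

The identity is `z ⊓ ((x ⊓ y) ⊔ (y ⊓ z) ⊔ (z ⊓ x)) ≈ (x ⊓ z) ⊔ (y ⊓ z)`, and `L` is the
eight-element Boolean lattice with one coatom doubled.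
-/

namespace Pool.Agent.Results.MP_78b302_al.Disproof

/-- Lattice terms in the variables `x_i`, `i : Fin n`. -/
inductive LTerm (n : ℕ) : Type
  | var : Fin n → LTerm n
  | inf : LTerm n → LTerm n → LTerm n
  | sup : LTerm n → LTerm n → LTerm n

namespace LTerm

/-- The value of a lattice term in a lattice `L` under the assignment `x_i ↦ v i`. -/
def eval {n : ℕ} {L : Type*} [Lattice L] (v : Fin n → L) : LTerm n → L
  | var i => v i
  | inf s t => eval v s ⊓ eval v t
  | sup s t => eval v s ⊔ eval v t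

/-- The term `t_σ`: each variable `x_i` is replaced with `x_{σ i}`. -/
def perm {n : ℕ} (σ : Equiv.Perm (Fin n)) : LTerm n → LTerm n
  | var i => var (σ i)
  | inf s t => inf (perm σ s) (perm σ t)
  | sup s t => sup (perm σ s) (perm σ t)

/-- The terms `s` and `t` are equal as elements of the free lattice `FL(n)`: they take the same
value in every lattice under every assignment.  (The free lattice `FL(n)` is countable, so it is
isomorphic to a lattice in `Type`.) -/
def EqFL {n : ℕ} (s t : LTerm n) : Prop :=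
  ∀ (M : Type) [Lattice M] (v : Fin n → M), s.eval v = t.eval v

/-- The term `t` is symmetric: `t = t_σ` in `FL(n)` for every permutation `σ`. -/
def IsSymmetric {n : ℕ} (t : LTerm n) : Prop :=
  ∀ σ : Equiv.Perm (Fin n), EqFL t (t.perm σ)

end LTerm

/-- A lattice identity `lhs ≈ rhs`, together with its arity. -/
structure Identity where
  /-- the arity `n` of the identity -/
  arity : ℕ
  /-- the left-hand side, an `n`-ary term -/
  lhs : LTerm arity
  /-- the right-hand side, an `n`-ary term -/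
  rhs : LTerm arity

/-- The identity `e` holds in the lattice `L`. -/
def Identity.HoldsIn (e : Identity) (L : Type*) [Lattice L] : Prop :=
  ∀ v : Fin e.arity → L, e.lhs.eval v = e.rhs.eval v

/-- The identity `e` is symmetric: both its sides are symmetric terms (of the same arity). -/
def Identity.IsSymmetric (e : Identity) : Prop :=
  e.lhs.IsSymmetric ∧ e.rhs.IsSymmetric

/-- The lattice `L` belongs to the lattice variety defined by the set `Γ` of identities. -/
def InVariety (Γ : Set Identity) (L : Type*) [Lattice L] : Prop :=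
  ∀ e ∈ Γ, e.HoldsIn L

/-! ### Basic facts about evaluation -/

theorem eval_perm {n : ℕ} {L : Type*} [Lattice L] (σ : Equiv.Perm (Fin n)) (v : Fin n → L)
    (t : LTerm n) : (t.perm σ).eval v = t.eval (v ∘ σ) := by
  induction t with
  | var i => rfl
  | inf s t hs ht => simp only [LTerm.perm, LTerm.eval, hs, ht]
  | sup s t hs ht => simp only [LTerm.perm, LTerm.eval, hs, ht]

theorem eval_hom {n : ℕ} {L M : Type*} [Lattice L] [Lattice M] (f : L → M)
    (hinf : ∀ a b, f (a ⊓ b) = f a ⊓ f b) (hsup : ∀ a b, f (a ⊔ b) = f a ⊔ f b)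
    (v : Fin n → L) (t : LTerm n) : f (t.eval v) = t.eval (fun i => f (v i)) := by
  induction t with
  | var i => rfl
  | inf s t hs ht => simp only [LTerm.eval, hinf, hs, ht]
  | sup s t hs ht => simp only [LTerm.eval, hsup, hs, ht]

theorem eval_symm {n : ℕ} {L : Type} [Lattice L] {t : LTerm n} (ht : t.IsSymmetric)
    (σ : Equiv.Perm (Fin n)) (v : Fin n → L) : t.eval (v ∘ σ) = t.eval v := by
  rw [← eval_perm]
  exact (ht σ L v).symm

/-! ### The nine-element lattice -/

/-- The carrier of the nine-element lattice: `0` is the bottom, `1` the top, `2, 3, 4` are the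
coatoms, `5 < 4`, and `6, 7, 8` are the atoms. -/
def L9 : Type := Fin 9

instance : DecidableEq L9 := inferInstanceAs (DecidableEq (Fin 9))
instance : Fintype L9 := inferInstanceAs (Fintype (Fin 9))

/-- the join table -/
def supTab : Fin 9 → Fin 9 → Fin 9 :=
  ![![0,1,2,3,4,5,6,7,8], ![1,1,1,1,1,1,1,1,1], ![2,1,2,1,1,1,1,2,2],
    ![3,1,1,3,1,1,3,1,3], ![4,1,1,1,4,4,4,4,1], ![5,1,1,1,4,5,5,5,1],
    ![6,1,1,3,4,5,6,5,3], ![7,1,2,1,4,5,5,7,2], ![8,1,2,3,1,1,3,2,8]]

/-- the meet table -/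
def infTab : Fin 9 → Fin 9 → Fin 9 :=
  ![![0,0,0,0,0,0,0,0,0], ![0,1,2,3,4,5,6,7,8], ![0,2,2,8,7,7,0,7,8],
    ![0,3,8,3,6,6,6,0,8], ![0,4,7,6,4,5,6,7,0], ![0,5,7,6,5,5,6,7,0],
    ![0,6,0,6,6,6,6,0,0], ![0,7,7,0,7,7,0,7,0], ![0,8,8,8,0,0,0,0,8]]

instance : Max L9 := ⟨supTab⟩
instance : Min L9 := ⟨infTab⟩

theorem L9_sup_comm : ∀ a b : L9, a ⊔ b = b ⊔ a := by decide +kernel
theorem L9_sup_assoc : ∀ a b c : L9, a ⊔ b ⊔ c = a ⊔ (b ⊔ c) := by decide +kernel
theorem L9_inf_comm : ∀ a b : L9, a ⊓ b = b ⊓ a := by decide +kernel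
theorem L9_inf_assoc : ∀ a b c : L9, a ⊓ b ⊓ c = a ⊓ (b ⊓ c) := by decide +kernel
theorem L9_sup_inf_self : ∀ a b : L9, a ⊔ a ⊓ b = a := by decide +kernel
theorem L9_inf_sup_self : ∀ a b : L9, a ⊓ (a ⊔ b) = a := by decide +kernel

instance : Lattice L9 :=
  Lattice.mk' L9_sup_comm L9_sup_assoc L9_inf_comm L9_inf_assoc L9_sup_inf_self L9_inf_sup_self

/-- an element of `L9` from its number -/
def el (i : Fin 9) : L9 := i

/-! ### The identity -/

/-- The ternary identity `z ⊓ ((x ⊓ y) ⊔ (y ⊓ z) ⊔ (z ⊓ x)) ≈ (x ⊓ z) ⊔ (y ⊓ z)`. -/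
def eps : Identity where
  arity := 3
  lhs := .inf (.var 2)
    (.sup (.sup (.inf (.var 0) (.var 1)) (.inf (.var 1) (.var 2))) (.inf (.var 2) (.var 0)))
  rhs := .sup (.inf (.var 0) (.var 2)) (.inf (.var 1) (.var 2))

theorem eps_holds_iff (L : Type*) [Lattice L] : eps.HoldsIn L ↔
    ∀ x y z : L, z ⊓ ((x ⊓ y) ⊔ (y ⊓ z) ⊔ (z ⊓ x)) = (x ⊓ z) ⊔ (y ⊓ z) := by
  constructor
  · intro h x y z
    exact h ![x, y, z]
  · intro h v
    exact h (v (0 : Fin 3)) (v (1 : Fin 3)) (v (2 : Fin 3))

theorem eps_L9 : ¬ eps.HoldsIn L9 := by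
  rw [eps_holds_iff]
  intro h
  exact absurd (h (el 2) (el 3) (el 4)) (by decide +kernel)

theorem eps_Bool : eps.HoldsIn Bool := by
  rw [eps_holds_iff]
  decide

/-- Every failure of the identity in `L9` uses all three coatoms. -/
theorem eps_fail : ∀ x y z : L9, z ⊓ ((x ⊓ y) ⊔ (y ⊓ z) ⊔ (z ⊓ x)) = (x ⊓ z) ⊔ (y ⊓ z) ∨
    ((x = el 2 ∧ y = el 3) ∨ (x = el 3 ∧ y = el 2)) ∧ z = el 4 := by
  decide +kernel

/-! ### Maximal proper sublattices -/

/-- Five proper sublattices of `L9`. -/
def sub : Fin 5 → Finset (Fin 9) :=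
  ![{0,1,2,3,5,6,7,8}, {0,1,2,4,5,7,8}, {0,1,2,4,5,6,7}, {0,1,3,4,5,6,7}, {0,1,3,4,5,6,8}]

/-- membership in the `j`-th sublattice -/
def inSub (j : Fin 5) (a : L9) : Prop := (show Fin 9 from a) ∈ sub j

instance (j : Fin 5) (a : L9) : Decidable (inSub j a) :=
  inferInstanceAs (Decidable ((show Fin 9 from a) ∈ sub j))

theorem inSub_inf : ∀ (j : Fin 5) (a b : L9), inSub j a → inSub j b → inSub j (a ⊓ b) := by
  decide +kernel

theorem inSub_sup : ∀ (j : Fin 5) (a b : L9), inSub j a → inSub j b → inSub j (a ⊔ b) := by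
  decide +kernel

theorem not_all_inSub : ∀ j : Fin 5, ¬ (inSub j (el 2) ∧ inSub j (el 3) ∧ inSub j (el 4)) := by
  decide +kernel

/-- The `j`-th sublattice. -/
def S (j : Fin 5) : Sublattice L9 where
  carrier := {a | inSub j a}
  supClosed' := fun a ha b hb => inSub_sup j a b ha hb
  infClosed' := fun a ha b hb => inSub_inf j a b ha hb

theorem eps_S (j : Fin 5) : eps.HoldsIn (S j) := by
  rw [eps_holds_iff]
  intro x y z
  have hx : inSub j x.1 := x.2
  have hy : inSub j y.1 := y.2
  have hz : inSub j z.1 := z.2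
  apply Subtype.ext
  rcases eps_fail x.1 y.1 z.1 with h | ⟨h | h, h'⟩
  · exact h
  · exact absurd ⟨h.1 ▸ hx, h.2 ▸ hy, h' ▸ hz⟩ (not_all_inSub j)
  · exact absurd ⟨h.2 ▸ hy, h.1 ▸ hx, h' ▸ hz⟩ (not_all_inSub j)

/-- Every triple of elements of `L9` lies in one of the five sublattices, unless it is a
permutation of the three coatoms. -/
theorem triple : ∀ a b c : L9, (∃ j, inSub j a ∧ inSub j b ∧ inSub j c) ∨
    (a = el 2 ∧ b = el 3 ∧ c = el 4) ∨ (a = el 2 ∧ b = el 4 ∧ c = el 3) ∨
    (a = el 3 ∧ b = el 2 ∧ c = el 4) ∨ (a = el 3 ∧ b = el 4 ∧ c = el 2) ∨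
    (a = el 4 ∧ b = el 2 ∧ c = el 3) ∨ (a = el 4 ∧ b = el 3 ∧ c = el 2) := by
  decide +kernel

/-! ### Three homomorphisms to the two-element lattice -/

/-- The characteristic functions of the principal filters of the three atoms. -/
def filt : Fin 3 → Fin 9 → Bool :=
  ![![false,true,true,true,false,false,false,false,true],
    ![false,true,true,false,true,true,false,true,false],
    ![false,true,false,true,true,true,true,false,false]]

/-- the same as functions on `L9` -/
def hom (i : Fin 3) (a : L9) : Bool := filt i a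

theorem hom_inf : ∀ (i : Fin 3) (a b : L9), hom i (a ⊓ b) = hom i a ⊓ hom i b := by
  decide +kernel

theorem hom_sup : ∀ (i : Fin 3) (a b : L9), hom i (a ⊔ b) = hom i a ⊔ hom i b := by
  decide +kernel

/-- An element at which the three homomorphisms agree is the bottom or the top, and two such
elements are equal as soon as the homomorphisms take the same value at them. -/
theorem hom_eq : ∀ a b : L9, hom 1 a = hom 0 a → hom 2 a = hom 0 a → hom 1 b = hom 0 b →
    hom 2 b = hom 0 b → hom 0 a = hom 0 b → a = b := by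
  decide +kernel

/-- If `v` is a permutation of the three coatoms, then the three Boolean vectors `hom i ∘ v` are
obtained from each other by permuting coordinates. -/
theorem hom_perm (v : Fin 3 → L9)
    (hv : (v 0 = el 2 ∧ v 1 = el 3 ∧ v 2 = el 4) ∨ (v 0 = el 2 ∧ v 1 = el 4 ∧ v 2 = el 3) ∨
    (v 0 = el 3 ∧ v 1 = el 2 ∧ v 2 = el 4) ∨ (v 0 = el 3 ∧ v 1 = el 4 ∧ v 2 = el 2) ∨
    (v 0 = el 4 ∧ v 1 = el 2 ∧ v 2 = el 3) ∨ (v 0 = el 4 ∧ v 1 = el 3 ∧ v 2 = el 2))
    (i : Fin 3) : ∃ σ : Equiv.Perm (Fin 3),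
      (fun j => hom i (v j)) = (fun j => hom 0 (v j)) ∘ σ := by
  have key : ∀ i : Fin 3, ∀ a b c : L9,
    ((a = el 2 ∧ b = el 3 ∧ c = el 4) ∨ (a = el 2 ∧ b = el 4 ∧ c = el 3) ∨
    (a = el 3 ∧ b = el 2 ∧ c = el 4) ∨ (a = el 3 ∧ b = el 4 ∧ c = el 2) ∨
    (a = el 4 ∧ b = el 2 ∧ c = el 3) ∨ (a = el 4 ∧ b = el 3 ∧ c = el 2)) →
    ∃ σ : Equiv.Perm (Fin 3), hom i a = hom 0 (![a, b, c] (σ 0)) ∧
      hom i b = hom 0 (![a, b, c] (σ 1)) ∧ hom i c = hom 0 (![a, b, c] (σ 2)) := by
    decide +kernel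
  obtain ⟨σ, h0, h1, h2⟩ := key i (v 0) (v 1) (v 2) hv
  have hvv : ![v 0, v 1, v 2] = v := by
    funext j
    fin_cases j <;> rfl
  rw [hvv] at h0 h1 h2
  refine ⟨σ, ?_⟩
  funext j
  fin_cases j
  · exact h0
  · exact h1
  · exact h2

/-- A symmetric ternary identity that holds in `Bool` holds in `L9` at every permutation of the
three coatoms. -/
theorem symm_at_coatoms {s t : LTerm 3} (hs : s.IsSymmetric) (ht : t.IsSymmetric)
    (hB : ∀ v : Fin 3 → Bool, s.eval v = t.eval v) (v : Fin 3 → L9)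
    (hv : (v 0 = el 2 ∧ v 1 = el 3 ∧ v 2 = el 4) ∨ (v 0 = el 2 ∧ v 1 = el 4 ∧ v 2 = el 3) ∨
    (v 0 = el 3 ∧ v 1 = el 2 ∧ v 2 = el 4) ∨ (v 0 = el 3 ∧ v 1 = el 4 ∧ v 2 = el 2) ∨
    (v 0 = el 4 ∧ v 1 = el 2 ∧ v 2 = el 3) ∨ (v 0 = el 4 ∧ v 1 = el 3 ∧ v 2 = el 2)) :
    s.eval v = t.eval v := by
  have key : ∀ {t : LTerm 3}, t.IsSymmetric → ∀ i : Fin 3,
      hom i (t.eval v) = hom 0 (t.eval v) := by
    intro t ht i
    obtain ⟨σ, hσ⟩ := hom_perm v hv i
    rw [eval_hom (hom i) (hom_inf i) (hom_sup i), eval_hom (hom 0) (hom_inf 0) (hom_sup 0), hσ,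
      eval_symm ht]
  refine hom_eq _ _ (key hs 1) (key hs 2) (key ht 1) (key ht 2) ?_
  rw [eval_hom (hom 0) (hom_inf 0) (hom_sup 0), eval_hom (hom 0) (hom_inf 0) (hom_sup 0)]
  exact hB _

/-- If all values of `v` lie in the sublattice `S j`, then every identity of `Mod(eps)` holds in
`L9` at `v`. -/
theorem eval_in_sub {n : ℕ} {s t : LTerm n} (j : Fin 5) (v : Fin n → L9)
    (hv : ∀ i, inSub j (v i)) (h : ∀ w : Fin n → S j, s.eval w = t.eval w) :
    s.eval v = t.eval v := by
  have hw := congrArg (fun a : S j => (a : L9)) (h fun i => ⟨v i, hv i⟩)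
  have e1 := eval_hom (fun a : S j => (a : L9)) (fun _ _ => rfl) (fun _ _ => rfl)
    (fun i => (⟨v i, hv i⟩ : S j)) s
  have e2 := eval_hom (fun a : S j => (a : L9)) (fun _ _ => rfl) (fun _ _ => rfl)
    (fun i => (⟨v i, hv i⟩ : S j)) t
  exact e1.symm.trans (hw.trans e2)

/-- **The negation of Q1**, with `k = 3`.  There are a ternary lattice identity `ε` and a lattice
`L` (with nine elements) which does not belong to the lattice variety `V` axiomatized by `ε`,
although `L` satisfies every symmetric identity of arity at most `3` that holds in `V`. -/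
theorem result : ∃ ε : Identity, ε.arity = 3 ∧
    ∃ (L : Type) (_ : Lattice L), Nat.card L = 9 ∧ ¬ InVariety {ε} L ∧
      ∀ e : Identity, e.arity ≤ 3 → e.IsSymmetric →
        (∀ (M : Type) [Lattice M], InVariety {ε} M → e.HoldsIn M) → e.HoldsIn L := by
  refine ⟨eps, rfl, L9, inferInstance, ?_, ?_, ?_⟩
  · rw [Nat.card_eq_fintype_card]
    exact Fintype.card_fin 9
  · intro h
    exact eps_L9 (h eps rfl)
  · rintro ⟨n, s, t⟩ hn ⟨hs, ht⟩ hV v
    have hV' : ∀ (M : Type) [Lattice M], eps.HoldsIn M → ∀ w : Fin n → M,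
        s.eval w = t.eval w := by
      intro M _ hM
      exact hV M (by
        intro e he
        rw [Set.mem_singleton_iff.mp he]
        exact hM)
    change s.eval v = t.eval v
    change n ≤ 3 at hn
    -- pad `v` to a triple
    obtain ⟨w, hw⟩ : ∃ w : Fin 3 → L9, ∀ i : Fin 3,
        (∀ h : (i : ℕ) < n, w i = v ⟨i, h⟩) ∧ (¬ (i : ℕ) < n → w i = el 0) := by
      refine ⟨fun i => if h : (i : ℕ) < n then v ⟨i, h⟩ else el 0, fun i => ⟨?_, ?_⟩⟩
      · intro h
        simp [h]
      · intro h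
        simp [h]
    rcases triple (w 0) (w 1) (w 2) with ⟨j, h0, h1, h2⟩ | hperm
    · refine eval_in_sub j v ?_ (hV' (S j) (eps_S j))
      have hall : ∀ i : Fin 3, inSub j (w i) := by
        intro i
        fin_cases i
        · exact h0
        · exact h1
        · exact h2
      intro i
      have hi : (i : ℕ) < 3 := lt_of_lt_of_le i.2 hn
      have := (hw ⟨i, hi⟩).1 i.2
      have h3 := hall ⟨i, hi⟩
      rw [this] at h3
      exact h3
    · have hne : ∀ i : Fin 3, w i ≠ el 0 := by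
        have h24 : el 2 ≠ el 0 ∧ el 3 ≠ el 0 ∧ el 4 ≠ el 0 := by decide +kernel
        intro i hi
        fin_cases i
        · change w 0 = el 0 at hi
          rw [hi] at hperm
          rcases hperm with h | h | h | h | h | h
          · exact h24.1 h.1.symm
          · exact h24.1 h.1.symm
          · exact h24.2.1 h.1.symm
          · exact h24.2.1 h.1.symm
          · exact h24.2.2 h.1.symm
          · exact h24.2.2 h.1.symm
        · change w 1 = el 0 at hi
          rw [hi] at hperm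
          rcases hperm with h | h | h | h | h | h
          · exact h24.2.1 h.2.1.symm
          · exact h24.2.2 h.2.1.symm
          · exact h24.1 h.2.1.symm
          · exact h24.2.2 h.2.1.symm
          · exact h24.1 h.2.1.symm
          · exact h24.2.1 h.2.1.symm
        · change w 2 = el 0 at hi
          rw [hi] at hperm
          rcases hperm with h | h | h | h | h | h
          · exact h24.2.2 h.2.2.symm
          · exact h24.2.1 h.2.2.symm
          · exact h24.2.2 h.2.2.symm
          · exact h24.1 h.2.2.symm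
          · exact h24.2.1 h.2.2.symm
          · exact h24.1 h.2.2.symm
      have hn3 : n = 3 := by
        by_contra hcon
        have h2 : ¬ ((2 : Fin 3) : ℕ) < n := by
          intro h
          have : (2 : ℕ) < n := h
          omega
        exact hne 2 ((hw 2).2 h2)
      subst hn3
      have hwv : w = v := by
        funext i
        exact (hw i).1 i.2
      subst hwv
      exact symm_at_coatoms hs ht (hV' Bool eps_Bool) w hperm

end Pool.Agent.Results.MP_78b302_al.Disproof
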